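import Pool.Agent.Y387.Frame.Main

/-!
# Weighted full spark tight frames in every finite-dimensional Banach space

Stronger form of the starting result `AllLengths`: all lengths and all weights `c i ∈ (0, 1]` with
sum `n`, vectors in general position (any `n` of them are linearly independent), and arbitrary
compact convex spanning sets, not necessarily symmetric, in place of unit balls.  The condition
`c i ≤ 1` is sharp: it is necessary in Euclidean spaces.
-/

set_option autoImplicit false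

namespace Pool.Agent.Results.MP_8b1f5a_an.WeightedFullSpark

open Module Pool.Agent.Y387.Frame

universe u v

/-- `x, f` is a tight frame with the weights `c` for `X`: all `x i` and `f i` have norm one,
`f i (x i) = 1`, and `∑ c i • f i ⊗ x i` is the identity. -/
def IsWeightedFrame (𝕜 : Type u) [RCLike 𝕜] (X : Type v) [NormedAddCommGroup X] [NormedSpace 𝕜 X]
    {N : ℕ} (c : Fin N → ℝ) (x : Fin N → X) (f : Fin N → StrongDual 𝕜 X) : Prop :=
  (∀ i, ‖x i‖ = 1 ∧ ‖f i‖ = 1 ∧ f i (x i) = 1) ∧ ∀ y : X, ∑ i, (c i : 𝕜) • f i y • x i = y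

/-- Any `dim X` of the vectors `x i` (with distinct indices) are linearly independent. -/
def FullSpark (𝕜 : Type u) [RCLike 𝕜] {X : Type v} [NormedAddCommGroup X] [NormedSpace 𝕜 X]
    {N : ℕ} (x : Fin N → X) : Prop :=
  ∀ e : Fin (finrank 𝕜 X) ↪ Fin N, LinearIndependent 𝕜 (x ∘ e)

/-- unions of the general construction with the unit ball -/
theorem exists_weighted {𝕜 : Type u} [RCLike 𝕜] {X : Type v} [NormedAddCommGroup X]
    [NormedSpace 𝕜 X] [FiniteDimensional 𝕜 X] [Nontrivial X] {N : ℕ}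
    (hN : finrank 𝕜 X ≤ N) (c : Fin N → ℝ) (hc0 : ∀ i, 0 < c i)
    (w : Equiv.Perm (Fin N) → ℝ) (hw0 : ∀ σ, 0 ≤ w σ) (hw1 : ∑ σ, w σ = 1)
    (hmarg : ∀ i, marg hN w i = c i) :
    ∃ (x : Fin N → X) (f : Fin N → StrongDual 𝕜 X), IsWeightedFrame 𝕜 X c x f ∧
      ∀ σ, 0 < w σ → LinearIndependent 𝕜 (fun k => x (σ (Fin.castLE hN k))) := by
  have : ProperSpace X := FiniteDimensional.proper_rclike 𝕜 X
  have hconv : KConv 𝕜 (Metric.closedBall (0 : X) 1) := by
    intro x hx y hy t ht0 ht1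
    rw [mem_closedBall_zero_iff] at hx hy ⊢
    calc ‖((1 - t : ℝ) : 𝕜) • x + (t : 𝕜) • y‖
        ≤ ‖((1 - t : ℝ) : 𝕜) • x‖ + ‖(t : 𝕜) • y‖ := norm_add_le _ _
      _ = (1 - t) * ‖x‖ + t * ‖y‖ := by
          rw [norm_smul, norm_smul, RCLike.norm_ofReal, RCLike.norm_ofReal,
            abs_of_nonneg (by linarith), abs_of_nonneg ht0]
      _ ≤ (1 - t) * 1 + t * 1 := by
          have h9 : 0 ≤ 1 - t := by linarith
          gcongr
      _ = 1 := by ring
  have hspan : Submodule.span 𝕜 (Metric.closedBall (0 : X) 1) = ⊤ := by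
    rw [eq_top_iff]
    intro y _
    by_cases hy : y = 0
    · rw [hy]; exact Submodule.zero_mem _
    have hy' : 0 < ‖y‖ := norm_pos_iff.2 hy
    have h1 : ((‖y‖⁻¹ : ℝ) : 𝕜) • y ∈ Metric.closedBall (0 : X) 1 := by
      rw [mem_closedBall_zero_iff, norm_smul, RCLike.norm_ofReal, abs_of_pos (inv_pos.2 hy'),
        inv_mul_cancel₀ hy'.ne']
    have h2 := Submodule.smul_mem _ ((‖y‖ : ℝ) : 𝕜) (Submodule.subset_span h1 :
      _ ∈ Submodule.span 𝕜 (Metric.closedBall (0 : X) 1))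
    rw [smul_smul, ← RCLike.ofReal_mul, mul_inv_cancel₀ hy'.ne', RCLike.ofReal_one, one_smul] at h2
    exact h2
  obtain ⟨x, g, h1, h2, h3⟩ := exists_frame hN c hc0 w hw0 hw1 hmarg
    (isCompact_closedBall (0 : X) 1) hconv hspan
  have hnorm : ∀ i y, ‖g i y‖ ≤ 1 * ‖y‖ := by
    intro i y
    rw [one_mul]
    by_cases hy : y = 0
    · simp [hy]
    by_cases hg : g i y = 0
    · rw [hg, norm_zero]; exact norm_nonneg _
    have hy' : 0 < ‖y‖ := norm_pos_iff.mpr hy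
    have hg' : 0 < ‖g i y‖ := norm_pos_iff.mpr hg
    have h1 := (h1 i).2.2 (((starRingEnd 𝕜 (g i y)) * ((‖g i y‖⁻¹ * ‖y‖⁻¹ : ℝ) : 𝕜)) • y) (by
      rw [mem_closedBall_zero_iff, norm_smul, norm_mul, RCLike.norm_conj, RCLike.norm_ofReal,
        abs_of_pos (by positivity)]
      have : ‖g i y‖ * (‖g i y‖⁻¹ * ‖y‖⁻¹) * ‖y‖ = 1 := by
        field_simp
      rw [this])
    rw [map_smul, smul_eq_mul] at h1
    have h2 : (starRingEnd 𝕜 (g i y)) * ((‖g i y‖⁻¹ * ‖y‖⁻¹ : ℝ) : 𝕜) * g i y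
        = ((‖g i y‖ * ‖y‖⁻¹ : ℝ) : 𝕜) := by
      have h3 : (starRingEnd 𝕜 (g i y)) * g i y = ((‖g i y‖ ^ 2 : ℝ) : 𝕜) := by
        rw [RCLike.conj_mul]
        push_cast
        rfl
      calc (starRingEnd 𝕜 (g i y)) * ((‖g i y‖⁻¹ * ‖y‖⁻¹ : ℝ) : 𝕜) * g i y
          = ((starRingEnd 𝕜 (g i y)) * g i y) * ((‖g i y‖⁻¹ * ‖y‖⁻¹ : ℝ) : 𝕜) := by ring
        _ = ((‖g i y‖ ^ 2 * (‖g i y‖⁻¹ * ‖y‖⁻¹) : ℝ) : 𝕜) := by
            rw [h3]
            push_cast
            ring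
        _ = ((‖g i y‖ * ‖y‖⁻¹ : ℝ) : 𝕜) := by
            congr 1
            field_simp
    rw [h2, RCLike.ofReal_re, ← div_eq_mul_inv, div_le_one hy'] at h1
    exact h1
  refine ⟨x, fun i => LinearMap.toContinuousLinearMap (g i), ⟨fun i => ?_, fun y => h2 y⟩, h3⟩
  have hop : ‖LinearMap.toContinuousLinearMap (g i)‖ ≤ 1 :=
    ContinuousLinearMap.opNorm_le_bound _ zero_le_one (fun y => hnorm i y)
  have hval : (LinearMap.toContinuousLinearMap (g i)) (x i) = 1 := (h1 i).2.1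
  have h4 : (1 : ℝ) ≤ ‖LinearMap.toContinuousLinearMap (g i)‖ * ‖x i‖ := by
    have := (LinearMap.toContinuousLinearMap (g i)).le_opNorm (x i)
    rwa [hval, norm_one] at this
  have hx1i : ‖x i‖ ≤ 1 := by simpa using (h1 i).1
  have hnn := norm_nonneg (x i)
  have hnn2 := norm_nonneg (LinearMap.toContinuousLinearMap (g i))
  refine ⟨le_antisymm hx1i ?_, le_antisymm hop ?_, hval⟩
  · nlinarith
  · nlinarith

/-- every embedding of `Fin n` in `Fin N` is the restriction of a permutation -/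
lemma exists_perm {n N : ℕ} (h : n ≤ N) (e : Fin n ↪ Fin N) :
    ∃ σ : Equiv.Perm (Fin N), ∀ k, σ (Fin.castLE h k) = e k := by
  classical
  obtain ⟨σ, hσ⟩ := (Equiv.Perm.isMultiplyPretransitive (Fin N) n).exists_smul_eq
    (Fin.castLEEmb h) e
  refine ⟨σ, fun k => ?_⟩
  have := congrArg (fun g : Fin n ↪ Fin N => g k) hσ
  simpa using this

/-- the sum of the weights is the dimension -/
lemma sum_eq_finrank {𝕜 : Type u} [RCLike 𝕜] {X : Type v} [NormedAddCommGroup X]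
    [NormedSpace 𝕜 X] [FiniteDimensional 𝕜 X] {N : ℕ} {c : Fin N → ℝ} {x : Fin N → X}
    {f : Fin N → StrongDual 𝕜 X} (h : IsWeightedFrame 𝕜 X c x f) :
    ∑ i, c i = finrank 𝕜 X := by
  have h1 : (∑ i, (c i : 𝕜) • (LinearMap.smulRight (f i : X →ₗ[𝕜] 𝕜) (x i)) : X →ₗ[𝕜] X)
      = LinearMap.id := by
    ext y
    rw [LinearMap.sum_apply]
    simp only [LinearMap.smul_apply, LinearMap.smulRight_apply, LinearMap.id_apply]
    exact h.2 y
  have h2 := congrArg (LinearMap.trace 𝕜 X) h1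
  rw [LinearMap.trace_id, map_sum] at h2
  have h3 : ∀ i, LinearMap.trace 𝕜 X ((c i : 𝕜) • (LinearMap.smulRight (f i : X →ₗ[𝕜] 𝕜) (x i)))
      = (c i : 𝕜) := by
    intro i
    rw [map_smul, LinearMap.trace_smulRight]
    have : (f i : X →ₗ[𝕜] 𝕜) (x i) = 1 := (h.1 i).2.2
    rw [this, smul_eq_mul, mul_one]
  rw [Finset.sum_congr rfl (fun i _ => h3 i)] at h2
  exact_mod_cast h2

/-- in inner product spaces the weights are at most one -/
lemma le_one_of_inner {𝕜 : Type u} [RCLike 𝕜] {X : Type v} [NormedAddCommGroup X]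
    [InnerProductSpace 𝕜 X] [FiniteDimensional 𝕜 X] {N : ℕ} {c : Fin N → ℝ} {x : Fin N → X}
    {f : Fin N → StrongDual 𝕜 X} (hc : ∀ i, 0 ≤ c i) (h : IsWeightedFrame 𝕜 X c x f) (j : Fin N) :
    c j ≤ 1 := by
  have : CompleteSpace X := FiniteDimensional.complete 𝕜 X
  have hf : ∀ i y, f i y = inner 𝕜 (x i) y := by
    intro i y
    set a := (InnerProductSpace.toDual 𝕜 X).symm (f i) with ha
    have h1 : ∀ z, f i z = inner 𝕜 a z := fun z => by
      rw [ha, InnerProductSpace.toDual_symm_apply]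
    have h2 : ‖a‖ = 1 := by rw [ha, LinearIsometryEquiv.norm_map]; exact (h.1 i).2.1
    have h3 : inner 𝕜 a (x i) = 1 := by rw [← h1]; exact (h.1 i).2.2
    have h4 : a = x i := (inner_eq_one_iff_of_norm_eq_one h2 (h.1 i).1).1 h3
    rw [h1, h4]
  have h5 : inner 𝕜 (x j) (∑ i, (c i : 𝕜) • f i (x j) • x i) = (1 : 𝕜) := by
    rw [h.2 (x j), inner_self_eq_norm_sq_to_K, (h.1 j).1]
    simp
  rw [inner_sum] at h5
  have h6 : ∀ i, inner 𝕜 (x j) ((c i : 𝕜) • f i (x j) • x i)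
      = ((c i * ‖inner 𝕜 (x i) (x j)‖ ^ 2 : ℝ) : 𝕜) := by
    intro i
    rw [inner_smul_right, inner_smul_right, hf, ← inner_conj_symm (x j) (x i), RCLike.mul_conj]
    push_cast
    rfl
  rw [Finset.sum_congr rfl (fun i _ => h6 i), ← RCLike.ofReal_sum] at h5
  have h7 : ∑ i, c i * ‖inner 𝕜 (x i) (x j)‖ ^ 2 = 1 := by exact_mod_cast h5
  have h8 := Finset.single_le_sum (f := fun i => c i * ‖inner 𝕜 (x i) (x j)‖ ^ 2)
    (fun i _ => mul_nonneg (hc i) (sq_nonneg _)) (Finset.mem_univ j)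
  rw [h7, inner_self_eq_norm_sq_to_K, (h.1 j).1] at h8
  simpa using h8

/-- Weighted tight frames. -/
theorem weighted {𝕜 : Type u} [RCLike 𝕜] {X : Type v} [NormedAddCommGroup X]
    [NormedSpace 𝕜 X] [FiniteDimensional 𝕜 X] [Nontrivial X] {N : ℕ} (c : Fin N → ℝ)
    (hc0 : ∀ i, 0 < c i) (hc1 : ∀ i, c i ≤ 1) (hs : ∑ i, c i = finrank 𝕜 X) :
    ∃ (x : Fin N → X) (f : Fin N → StrongDual 𝕜 X), IsWeightedFrame 𝕜 X c x f ∧
      ((∀ i, c i < 1) → FullSpark 𝕜 x) := by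
  have hN : finrank 𝕜 X ≤ N := by
    have h1 : ∑ i, c i ≤ ∑ _i : Fin N, (1 : ℝ) := Finset.sum_le_sum (fun i _ => hc1 i)
    rw [hs] at h1
    simp only [Finset.sum_const, Finset.card_univ, Fintype.card_fin, nsmul_eq_mul, mul_one] at h1
    exact_mod_cast h1
  obtain ⟨w, hw0, hw1, hw2, hw3⟩ := exists_weights (finrank_pos (R := 𝕜) (M := X)) hN c hc0 hc1 hs
  obtain ⟨x, f, h1, h2⟩ := exists_weighted (X := X) hN c hc0 w hw0 hw1 hw2
  refine ⟨x, f, h1, fun hlt e => ?_⟩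
  obtain ⟨σ, hσ⟩ := exists_perm hN e
  have h3 := h2 σ (hw3 hlt σ)
  have h4 : (fun k => x (σ (Fin.castLE hN k))) = x ∘ e := by
    ext k
    simp only [hσ, Function.comp_apply]
  rwa [h4] at h3

/-- Full spark tight frames of every length. -/
theorem all_lengths {𝕜 : Type u} [RCLike 𝕜] {X : Type v} [NormedAddCommGroup X]
    [NormedSpace 𝕜 X] [FiniteDimensional 𝕜 X] [Nontrivial X] (N : ℕ) (hN : finrank 𝕜 X ≤ N) :
    ∃ (x : Fin N → X) (f : Fin N → StrongDual 𝕜 X),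
      (∀ i, ‖x i‖ = 1 ∧ ‖f i‖ = 1 ∧ f i (x i) = 1) ∧
      (∀ y : X, ∑ i, f i y • x i = ((N : 𝕜) / (finrank 𝕜 X : 𝕜)) • y) ∧ FullSpark 𝕜 x := by
  have hn0 : 0 < finrank 𝕜 X := finrank_pos
  have hn : (0 : ℝ) < finrank 𝕜 X := by exact_mod_cast hn0
  have hN' : (finrank 𝕜 X : ℝ) ≤ N := by exact_mod_cast hN
  have hN0 : (0 : ℝ) < N := by linarith
  set q : ℝ := (finrank 𝕜 X : ℝ) / N with hq
  have hq0 : 0 < q := div_pos hn hN0
  have hq1 : q ≤ 1 := (div_le_one hN0).2 hN'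
  have hs : ∑ _i : Fin N, q = finrank 𝕜 X := by
    simp only [Finset.sum_const, Finset.card_univ, Fintype.card_fin, nsmul_eq_mul]
    rw [hq]
    field_simp
  obtain ⟨x, f, h1, h2⟩ := weighted (𝕜 := 𝕜) (X := X) (fun _ : Fin N => q) (fun _ => hq0)
    (fun _ => hq1) hs
  refine ⟨x, f, h1.1, fun y => ?_, ?_⟩
  · have h3 := h1.2 y
    rw [← Finset.smul_sum] at h3
    have h4 : ((N : 𝕜) / (finrank 𝕜 X : 𝕜)) = ((q : ℝ) : 𝕜)⁻¹ := by
      rw [hq]
      push_cast
      rw [inv_div]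
    rw [h4]
    have hq𝕜 : ((q : ℝ) : 𝕜) ≠ 0 := RCLike.ofReal_ne_zero.2 hq0.ne'
    rw [eq_inv_smul_iff₀ hq𝕜]
    exact h3
  · rcases hN.lt_or_eq with h | h
    · apply h2
      intro _
      have : (finrank 𝕜 X : ℝ) < N := by exact_mod_cast h
      exact (div_lt_one hN0).2 this
    · intro e
      have hspan : ⊤ ≤ Submodule.span 𝕜 (Set.range (x ∘ e)) := by
        have hsurj : Function.Surjective e := by
          have hcard : Fintype.card (Fin (finrank 𝕜 X)) = Fintype.card (Fin N) := by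
            simp [h]
          exact ((Fintype.bijective_iff_injective_and_card e).2 ⟨e.injective, hcard⟩).2
        rw [hsurj.range_comp]
        intro y _
        rw [← h1.2 y]
        exact Submodule.sum_mem _ (fun i _ => Submodule.smul_mem _ _
          (Submodule.smul_mem _ _ (Submodule.subset_span ⟨i, rfl⟩)))
      exact linearIndependent_of_top_le_span_of_card_eq_finrank hspan (by simp)

/-- **Weighted tight frames in Banach spaces.**
(1) Every nonzero finite-dimensional Banach space over `ℝ` or `ℂ` has finite unit norm tight frames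
of every length `N` at least its dimension `n`, in which any `n` of the vectors are linearly
independent.
(2) For all weights `c i ∈ (0, 1]` with sum `n`, every `n`-dimensional Banach space has a tight frame
with these weights, in which any `n` of the vectors are linearly independent if all `c i < 1`.
(3) This is sharp: a family of positive weights has tight frames in all `n`-dimensional spaces if and
only if all weights are at most one and their sum is `n`; in fact the inequality `c i ≤ 1` holds for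
the weights of all tight frames in inner product spaces.
(4) The same for an arbitrary compact convex set `K` that spans a real vector space of dimension
`n`: there are `x i ∈ K` and linear forms `f i` with `f i ≤ 1` on `K`, `f i (x i) = 1` and
`∑ c i • f i ⊗ x i = Id`. -/
theorem result :
    (∀ (𝕜 : Type u) [RCLike 𝕜] (X : Type v) [NormedAddCommGroup X] [NormedSpace 𝕜 X]
      [FiniteDimensional 𝕜 X] [Nontrivial X] (N : ℕ), finrank 𝕜 X ≤ N →
      ∃ (x : Fin N → X) (f : Fin N → StrongDual 𝕜 X),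
        (∀ i, ‖x i‖ = 1 ∧ ‖f i‖ = 1 ∧ f i (x i) = 1) ∧
        (∀ y : X, ∑ i, f i y • x i = ((N : 𝕜) / (finrank 𝕜 X : 𝕜)) • y) ∧ FullSpark 𝕜 x) ∧
    (∀ (𝕜 : Type u) [RCLike 𝕜] (X : Type v) [NormedAddCommGroup X] [NormedSpace 𝕜 X]
      [FiniteDimensional 𝕜 X] [Nontrivial X] (N : ℕ) (c : Fin N → ℝ),
      (∀ i, 0 < c i ∧ c i ≤ 1) → ∑ i, c i = finrank 𝕜 X →
      ∃ (x : Fin N → X) (f : Fin N → StrongDual 𝕜 X), IsWeightedFrame 𝕜 X c x f ∧
        ((∀ i, c i < 1) → FullSpark 𝕜 x)) ∧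
    (∀ (𝕜 : Type) [RCLike 𝕜] (n : ℕ), 0 < n → ∀ (N : ℕ) (c : Fin N → ℝ), (∀ i, 0 < c i) →
      ((∀ (X : Type) [NormedAddCommGroup X] [NormedSpace 𝕜 X], finrank 𝕜 X = n →
        ∃ (x : Fin N → X) (f : Fin N → StrongDual 𝕜 X), IsWeightedFrame 𝕜 X c x f) ↔
      (∀ i, c i ≤ 1) ∧ ∑ i, c i = n)) ∧
    (∀ (𝕜 : Type u) [RCLike 𝕜] (X : Type v) [NormedAddCommGroup X] [InnerProductSpace 𝕜 X]
      [FiniteDimensional 𝕜 X] (N : ℕ) (c : Fin N → ℝ) (x : Fin N → X)
      (f : Fin N → StrongDual 𝕜 X), (∀ i, 0 ≤ c i) → IsWeightedFrame 𝕜 X c x f →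
      (∀ i, c i ≤ 1) ∧ ∑ i, c i = finrank 𝕜 X) ∧
    (∀ (X : Type v) [NormedAddCommGroup X] [NormedSpace ℝ X] [FiniteDimensional ℝ X]
      [Nontrivial X] (K : Set X), IsCompact K → Convex ℝ K → Submodule.span ℝ K = ⊤ →
      ∀ (N : ℕ) (c : Fin N → ℝ), (∀ i, 0 < c i ∧ c i ≤ 1) → ∑ i, c i = finrank ℝ X →
      ∃ (x : Fin N → X) (f : Fin N → (X →ₗ[ℝ] ℝ)),
        (∀ i, x i ∈ K ∧ f i (x i) = 1 ∧ ∀ y ∈ K, f i y ≤ 1) ∧
        (∀ y : X, ∑ i, c i • f i y • x i = y) ∧ ((∀ i, c i < 1) → FullSpark ℝ x)) := by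
  refine ⟨?_, ?_, ?_, ?_, ?_⟩
  · intro 𝕜 _ X _ _ _ _ N hN
    exact all_lengths N hN
  · intro 𝕜 _ X _ _ _ _ N c hc hs
    exact weighted c (fun i => (hc i).1) (fun i => (hc i).2) hs
  · intro 𝕜 _ n hn N c hc
    constructor
    · intro h
      obtain ⟨x, f, hxf⟩ := h (EuclideanSpace 𝕜 (Fin n)) (by simp)
      refine ⟨fun i => le_one_of_inner (fun i => (hc i).le) hxf i, ?_⟩
      rw [sum_eq_finrank hxf]
      simp
    · rintro ⟨h1, h2⟩ X _ _ hX
      have hfin : FiniteDimensional 𝕜 X := FiniteDimensional.of_finrank_pos (by omega)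
      have hnt : Nontrivial X := Module.nontrivial_of_finrank_pos (R := 𝕜) (by omega)
      obtain ⟨x, f, hxf, -⟩ := weighted (𝕜 := 𝕜) (X := X) c hc h1 (by rw [h2, hX])
      exact ⟨x, f, hxf⟩
  · intro 𝕜 _ X _ _ _ N c x f hc hxf
    exact ⟨fun i => le_one_of_inner hc hxf i, sum_eq_finrank hxf⟩
  · intro X _ _ _ _ K hK hKc hspan N c hc hs
    have hN : finrank ℝ X ≤ N := by
      have h1 : ∑ i, c i ≤ ∑ _i : Fin N, (1 : ℝ) := Finset.sum_le_sum (fun i _ => (hc i).2)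
      rw [hs] at h1
      simp only [Finset.sum_const, Finset.card_univ, Fintype.card_fin, nsmul_eq_mul, mul_one] at h1
      exact_mod_cast h1
    obtain ⟨w, hw0, hw1, hw2, hw3⟩ := exists_weights (finrank_pos (R := ℝ) (M := X)) hN c
      (fun i => (hc i).1) (fun i => (hc i).2) hs
    have hconv : KConv ℝ K := by
      intro x hx y hy t ht0 ht1
      have h9 := hKc hx hy (a := 1 - t) (b := t) (by linarith) ht0 (by ring)
      simpa only [RCLike.ofReal_real_eq_id, id_eq] using h9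
    obtain ⟨x, f, h1, h2, h3⟩ := exists_frame (𝕜 := ℝ) hN c (fun i => (hc i).1) w hw0 hw1 hw2 hK
      hconv hspan
    refine ⟨x, f, fun i => ⟨(h1 i).1, (h1 i).2.1, fun y hy => (h1 i).2.2 y hy⟩, fun y => h2 y,
      fun hlt e => ?_⟩
    obtain ⟨σ, hσ⟩ := exists_perm hN e
    have h4 := h3 σ (hw3 hlt σ)
    have h5 : (fun k => x (σ (Fin.castLE hN k))) = x ∘ e := by
      ext k
      simp only [hσ, Function.comp_apply]
    rwa [h5] at h4

end Pool.Agent.Results.MP_8b1f5a_an.WeightedFullSpark
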